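import Pool.Agent.H43.AG.Depth

/-!
# Alternating context-free grammars in leftmost mode: composition of derivation trees
-/

set_option autoImplicit false

namespace Pool.Agent.H43.AG

variable {V T : Type}

/-- context-free: the left sides are single variables -/
def ContextFree (G : Grammar V T) : Prop :=
  ∀ p ∈ G.P, ∃ A : V, p.1 = [Sum.inl A]

/-- the possible sets of right sides used in one step at the variable `A` -/
def Ch (G : Grammar V T) (A : V) : Set (Set (Form V T)) :=
  {R | (A ∈ G.U ∧ (∃ r, ([Sum.inl A], r) ∈ G.P) ∧ R = {r | ([Sum.inl A], r) ∈ G.P}) ∨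
    (A ∉ G.U ∧ ∃ r, ([Sum.inl A], r) ∈ G.P ∧ R = {r})}

theorem ch_nonempty (G : Grammar V T) {A : V} {R : Set (Form V T)} (h : R ∈ Ch G A) :
    R.Nonempty := by
  rcases h with ⟨_, ⟨r, hr⟩, rfl⟩ | ⟨_, r, _, rfl⟩
  · exact ⟨r, hr⟩
  · exact ⟨r, rfl⟩

theorem ch_mem (G : Grammar V T) {A : V} {R : Set (Form V T)} (h : R ∈ Ch G A)
    {r : Form V T} (hr : r ∈ R) : ([Sum.inl A], r) ∈ G.P := by
  rcases h with ⟨_, _, rfl⟩ | ⟨_, s, hs, rfl⟩
  · exact hr
  · rw [Set.mem_singleton_iff] at hr
    rw [hr]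
    exact hs

theorem universal_iff (G : Grammar V T) (A : V) :
    Universal G [Sum.inl A] ↔ A ∈ G.U := by
  constructor
  · rintro ⟨x, B, a, h, hB⟩
    rcases x with _ | ⟨b, x⟩
    · simp only [word, List.map_nil, List.nil_append, List.cons.injEq, Sum.inl.injEq] at h
      rw [h.1]
      exact hB
    · simp [word] at h
  · intro h
    exact ⟨[], A, [], rfl, h⟩

theorem step_iff (G : Grammar V T) (hG : ContextFree G) (h : Form V T) (C : Set (Form V T)) :
    Step G h C ↔ ∃ (x : List T) (A : V) (d : Form V T), ∃ R ∈ Ch G A,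
      h = word x ++ Sum.inl A :: d ∧ C = (fun r => word x ++ r ++ d) '' R := by
  constructor
  · intro hs
    cases hs with
    | ex x l r d hu hr =>
      obtain ⟨A, hA⟩ := hG _ hr
      simp only at hA
      subst hA
      rw [universal_iff] at hu
      refine ⟨x, A, d, {r}, Or.inr ⟨hu, r, hr, rfl⟩, by simp, ?_⟩
      rw [Set.image_singleton]
    | all x l d hu hr =>
      obtain ⟨r, hr⟩ := hr
      obtain ⟨A, hA⟩ := hG _ hr
      simp only at hA
      subst hA
      rw [universal_iff] at hu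
      refine ⟨x, A, d, {r | ([Sum.inl A], r) ∈ G.P}, Or.inl ⟨hu, ⟨r, hr⟩, rfl⟩, by simp, ?_⟩
      ext g
      simp only [Set.mem_setOf_eq, Set.mem_image]
      constructor
      · rintro ⟨r, hr, rfl⟩
        exact ⟨r, hr, rfl⟩
      · rintro ⟨r, hr, rfl⟩
        exact ⟨r, hr, rfl⟩
  · rintro ⟨x, A, d, R, hR, rfl, rfl⟩
    have e : (word x ++ Sum.inl A :: d : Form V T) = word x ++ [Sum.inl A] ++ d := by simp
    rw [e]
    rcases hR with ⟨hu, hr, rfl⟩ | ⟨hu, r, hr, rfl⟩
    · have := Step.all (G := G) x [Sum.inl A] d ((universal_iff G A).2 hu) hr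
      convert this using 1
      ext g
      simp only [Set.mem_setOf_eq, Set.mem_image]
      constructor
      · rintro ⟨r, hr, rfl⟩
        exact ⟨r, hr, rfl⟩
      · rintro ⟨r, hr, rfl⟩
        exact ⟨r, hr, rfl⟩
    · rw [Set.image_singleton]
      exact Step.ex x [Sum.inl A] r d (fun h => hu ((universal_iff G A).1 h)) hr

theorem word_append (x y : List T) : (word (x ++ y) : Form V T) = word x ++ word y := by
  simp [word]

theorem var_pos : ∀ (u x : List T) (A : V) (d b : Form V T),
    word x ++ Sum.inl A :: d = word u ++ b → ∃ y, x = u ++ y ∧ b = word y ++ Sum.inl A :: d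
  | [], x, A, d, b, h => ⟨x, rfl, h.symm⟩
  | c :: u, [], A, d, b, h => by
    simp [word] at h
  | c :: u, e :: x, A, d, b, h => by
    simp only [word, List.map_cons, List.cons_append, List.cons.injEq, Sum.inr.injEq] at h
    obtain ⟨h1, h2⟩ := h
    obtain ⟨y, hy, hb⟩ := var_pos u x A d b h2
    exact ⟨y, by rw [h1, hy]; rfl, hb⟩

theorem var_unique (x u : List T) (A B : V) (d e : Form V T)
    (h : word x ++ Sum.inl A :: d = word u ++ Sum.inl B :: e) : x = u ∧ A = B ∧ d = e := by
  obtain ⟨y, hy, hb⟩ := var_pos u x A d _ h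
  rcases y with _ | ⟨c, y⟩
  · simp only [word, List.map_nil, List.nil_append, List.cons.injEq, Sum.inl.injEq] at hb
    exact ⟨by simpa using hy, hb.1.symm, hb.2.symm⟩
  · simp [word] at hb

theorem word_split (w u : List T) (b : Form V T) (h : (word w : Form V T) = word u ++ b) :
    ∃ v, w = u ++ v ∧ b = word v := by
  have := List.map_eq_append_iff.1 (h : List.map Sum.inr w = _)
  obtain ⟨p, q, hw, hp, hq⟩ := this
  have : p = u := by
    have hinj : Function.Injective (Sum.inr : T → V ⊕ T) := Sum.inr_injective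
    exact List.map_injective_iff.2 hinj hp
  subst this
  exact ⟨q, hw, hq.symm⟩

theorem tree_left (G : Grammar V T) (hG : ContextFree G) (u v : List T) (b : Form V T)
    (h : Tree G v b) : Tree G (u ++ v) (word u ++ b) := by
  induction h with
  | leaf =>
    rw [← word_append]
    exact Tree.leaf
  | node f C hC _ ih =>
    obtain ⟨x, A, d, R, hR, rfl, rfl⟩ := (step_iff G hG _ _).1 hC
    refine Tree.node _ ((fun r => word (u ++ x) ++ r ++ d) '' R)
      ((step_iff G hG _ _).2 ⟨u ++ x, A, d, R, hR, by rw [word_append]; simp, rfl⟩) ?_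
    rintro g ⟨r, hr, rfl⟩
    have := ih _ ⟨r, hr, rfl⟩
    simpa [word_append] using this

theorem tree_unshift (G : Grammar V T) (hG : ContextFree G) (w : List T) (h : Form V T)
    (ht : Tree G w h) : ∀ (u : List T) (b : Form V T), h = word u ++ b →
      ∃ v, w = u ++ v ∧ Tree G v b := by
  induction ht with
  | leaf =>
    intro u b hb
    obtain ⟨v, hv, rfl⟩ := word_split w u b hb
    exact ⟨v, hv, Tree.leaf⟩
  | node f C hC _ ih =>
    intro u b hb
    obtain ⟨x, A, d, R, hR, rfl, rfl⟩ := (step_iff G hG _ _).1 hC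
    obtain ⟨y, rfl, rfl⟩ := var_pos u x A d b hb
    obtain ⟨r0, hr0⟩ := ch_nonempty G hR
    obtain ⟨v, hv, _⟩ := ih _ ⟨r0, hr0, rfl⟩ u (word y ++ r0 ++ d)
      (by rw [word_append]; simp)
    refine ⟨v, hv, Tree.node _ ((fun r => word y ++ r ++ d) '' R)
      ((step_iff G hG _ _).2 ⟨y, A, d, R, hR, rfl, rfl⟩) ?_⟩
    rintro g ⟨r, hr, rfl⟩
    obtain ⟨v', hv', ht'⟩ := ih _ ⟨r, hr, rfl⟩ u (word y ++ r ++ d)
      (by rw [word_append]; simp)
    have : v' = v := by
      rw [hv] at hv'
      exact (List.append_cancel_left hv').symm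
    rw [← this]
    exact ht'

/-- partial tree: the leaves are prefixes `u` of `w`, with rest in `R` -/
inductive PT (G : Grammar V T) (R : Set (List T)) (w : List T) : Form V T → Prop
  | leaf (u v : List T) : w = u ++ v → v ∈ R → PT G R w (word u)
  | node (f : Form V T) (C : Set (Form V T)) : Step G f C → (∀ g ∈ C, PT G R w g) → PT G R w f

theorem pt_comp (G : Grammar V T) (hG : ContextFree G) (R : Set (List T)) (w : List T)
    (f b : Form V T) (hR : ∀ v ∈ R, v <:+ w → Tree G v b) (h : PT G R w f) :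
    Tree G w (f ++ b) := by
  induction h with
  | leaf u v hw hv =>
    have := tree_left G hG u v b (hR v hv ⟨u, hw.symm⟩)
    rw [hw]
    exact this
  | node f C hC _ ih =>
    obtain ⟨x, A, d, S, hS, rfl, rfl⟩ := (step_iff G hG _ _).1 hC
    refine Tree.node _ ((fun r => word x ++ r ++ (d ++ b)) '' S)
      ((step_iff G hG _ _).2 ⟨x, A, d ++ b, S, hS, by simp, rfl⟩) ?_
    rintro g ⟨r, hr, rfl⟩
    have := ih _ ⟨r, hr, rfl⟩
    simpa using this

theorem form_cases (f : Form V T) : (∃ u, f = word u) ∨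
    ∃ (u : List T) (A : V) (d : Form V T), f = word u ++ Sum.inl A :: d := by
  induction f with
  | nil => exact Or.inl ⟨[], rfl⟩
  | cons c f ih =>
    rcases c with A | a
    · exact Or.inr ⟨[], A, f, rfl⟩
    · rcases ih with ⟨u, rfl⟩ | ⟨u, A, d, rfl⟩
      · exact Or.inl ⟨a :: u, rfl⟩
      · exact Or.inr ⟨a :: u, A, d, rfl⟩

theorem pt_decomp (G : Grammar V T) (hG : ContextFree G) (w : List T) (h : Form V T)
    (ht : Tree G w h) : ∀ f b : Form V T, h = f ++ b → PT G {v | Tree G v b} w f := by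
  induction ht with
  | leaf =>
    intro f b hb
    obtain ⟨p, q, hw, hp, hq⟩ := List.map_eq_append_iff.1 (hb : List.map Sum.inr w = _)
    rw [← hp]
    refine PT.leaf p q hw ?_
    rw [← hq]
    exact Tree.leaf
  | node h C hC hT ih =>
    intro f b hb
    rcases form_cases f with ⟨u, rfl⟩ | ⟨u, A, d, rfl⟩
    · obtain ⟨v, hv, htv⟩ := tree_unshift G hG w h (Tree.node h C hC hT) u b hb
      exact PT.leaf u v hv htv
    · obtain ⟨x, B, e, R, hR, rfl, rfl⟩ := (step_iff G hG _ _).1 hC
      have hb' : word x ++ Sum.inl B :: e = word u ++ Sum.inl A :: (d ++ b) := by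
        rw [hb]
        simp
      obtain ⟨rfl, rfl, rfl⟩ := var_unique x u B A e (d ++ b) hb'
      refine PT.node _ ((fun r => word x ++ r ++ d) '' R)
        ((step_iff G hG _ _).2 ⟨x, B, d, R, hR, rfl, rfl⟩) ?_
      rintro g ⟨r, hr, rfl⟩
      exact ih _ ⟨r, hr, rfl⟩ (word x ++ r ++ d) b (by simp)

/-- the suffixes of `w` generated by `b` determine those generated by `a ++ b` (monotonically) -/
theorem suffix_mono (G : Grammar V T) (hG : ContextFree G) (w : List T) (a b b' : Form V T)
    (h : ∀ v, v <:+ w → Tree G v b → Tree G v b') :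
    ∀ v, v <:+ w → Tree G v (a ++ b) → Tree G v (a ++ b') := by
  intro v hv ht
  exact pt_comp G hG {u | Tree G u b} v a b' (fun u hu hs => h u (hs.trans hv) hu)
    (pt_decomp G hG v _ ht a b rfl)

end Pool.Agent.H43.AG
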