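import Pool.Agent.H43.AG.Depth

/-!
# Trees of linear depth: counting
-/

set_option autoImplicit false

namespace Pool.Agent.H43.AG

variable {V T : Type}

/-- number of terminals in front of the leftmost variable -/
def lead (f : Form V T) : ℕ := (f.takeWhile Sum.isRight).length

theorem lead_le (f : Form V T) : lead f ≤ f.length :=
  (List.takeWhile_prefix _).length_le

theorem takeWhile_word (y : List T) (g : Form V T) :
    (word y ++ g).takeWhile Sum.isRight = word y ++ g.takeWhile Sum.isRight := by
  induction y with
  | nil => rfl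
  | cons a y ih =>
    simp only [word, List.map_cons, List.cons_append] at ih ⊢
    rw [List.takeWhile_cons_of_pos (by rfl), ih]

theorem lead_word (y : List T) (g : Form V T) : lead (word y ++ g) = y.length + lead g := by
  rw [lead, takeWhile_word, List.length_append, word, List.length_map]
  rfl

theorem lead_var (A : V) (g : Form V T) : lead (Sum.inl A :: g) = 0 := by
  rw [lead, List.takeWhile_cons_of_neg (by simp)]
  rfl

theorem sub_spec (G : Grammar V T) (hL : LmShape G) (hN : NonContracting G) (D : ℕ)
    (hD : ∀ p ∈ G.P, p.1.length ≤ D) {f g : Form V T} (h : Sub G f g) :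
    f.length ≤ g.length ∧ lead f ≤ lead g ∧ (f.length = g.length → lead f = lead g →
      f.take (lead f) = g.take (lead f) ∧ f.drop (lead f + D) = g.drop (lead f + D)) := by
  obtain ⟨c, l, r, d, hr, rfl, rfl⟩ := h
  obtain ⟨x, A, a, b, h1, h2⟩ := hL _ hr
  have h3 := hN _ hr
  have h4 := hD _ hr
  simp only at h1 h2 h3 h4
  subst h1 h2
  have e1 : word c ++ (word x ++ Sum.inl A :: a) ++ d
      = word (c ++ x) ++ (Sum.inl A :: (a ++ d) : Form V T) := by
    simp [word]
  have e2 : word c ++ (word x ++ b) ++ d = word (c ++ x) ++ (b ++ d : Form V T) := by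
    simp [word]
  rw [e1, e2]
  have l1 : lead (word (c ++ x) ++ (Sum.inl A :: (a ++ d) : Form V T)) = (c ++ x).length := by
    rw [lead_word, lead_var, Nat.add_zero]
  have l2 : lead (word (c ++ x) ++ (b ++ d : Form V T)) = (c ++ x).length + lead (b ++ d) :=
    lead_word _ _
  have w1 : (word (c ++ x) : Form V T).length = (c ++ x).length := by
    simp [word]
  simp only [List.length_append, List.length_cons] at h3 h4
  refine ⟨?_, ?_, ?_⟩
  · simp only [List.length_append, List.length_cons]
    omega
  · rw [l1, l2]
    omega
  · intro h5 _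
    rw [l1]
    simp only [List.length_append, List.length_cons] at h5
    constructor
    · rw [List.take_left' w1, List.take_left' w1]
    · rw [← List.drop_drop, ← List.drop_drop, List.drop_left' w1, List.drop_left' w1]
      have e3 : (Sum.inl A :: (a ++ d) : Form V T) = (Sum.inl A :: a) ++ d := rfl
      have z0 : (Sum.inl A :: a : Form V T).length = b.length := by
        simp only [List.length_cons]
        omega
      have z1 : (Sum.inl A :: a : Form V T).drop D = [] :=
        List.drop_eq_nil_of_le (by simp only [List.length_cons]; omega)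
      have z2 : b.drop D = [] := List.drop_eq_nil_of_le (by omega)
      rw [e3, List.drop_append, List.drop_append, z1, z2, z0]

theorem chain_spec (G : Grammar V T) (hL : LmShape G) (hN : NonContracting G) (D : ℕ)
    (hD : ∀ p ∈ G.P, p.1.length ≤ D) (s : ℕ → Form V T) (t j : ℕ)
    (hs : ∀ k, k < t → Sub G (s k) (s (k + 1))) (k : ℕ) (hjk : j ≤ k) (hk : k ≤ t) :
    (s j).length ≤ (s k).length ∧ lead (s j) ≤ lead (s k) ∧
      ((s j).length = (s k).length → lead (s j) = lead (s k) →
        (s j).take (lead (s j)) = (s k).take (lead (s j)) ∧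
        (s j).drop (lead (s j) + D) = (s k).drop (lead (s j) + D)) := by
  induction k, hjk using Nat.le_induction with
  | base => exact ⟨le_rfl, le_rfl, fun _ _ => ⟨rfl, rfl⟩⟩
  | succ k hjk ih =>
    obtain ⟨i1, i2, i3⟩ := ih (by omega)
    obtain ⟨u1, u2, u3⟩ := sub_spec G hL hN D hD (hs k (by omega))
    refine ⟨i1.trans u1, i2.trans u2, fun h1 h2 => ?_⟩
    have a1 : (s j).length = (s k).length := by omega
    have a2 : lead (s j) = lead (s k) := by omega
    have b1 : (s k).length = (s (k + 1)).length := by omega
    have b2 : lead (s k) = lead (s (k + 1)) := by omega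
    obtain ⟨c1, c2⟩ := i3 a1 a2
    obtain ⟨d1, d2⟩ := u3 b1 b2
    rw [← a2] at d1 d2
    exact ⟨c1.trans d1, c2.trans d2⟩

/-- the window of size `D` at the leftmost variable -/
def win (D : ℕ) (f : Form V T) : Fin D → Option (V ⊕ T) := fun i => f[lead f + i]?

theorem eq_of_win (D : ℕ) (f g : Form V T) (h1 : lead f = lead g)
    (h2 : f.take (lead f) = g.take (lead f)) (h3 : f.drop (lead f + D) = g.drop (lead f + D))
    (h4 : win D f = win D g) : f = g := by
  apply List.ext_getElem?
  intro i
  by_cases hi : i < lead f
  · have e1 : (f.take (lead f))[i]? = f[i]? := by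
      rw [List.getElem?_take_of_lt hi]
    have e2 : (g.take (lead f))[i]? = g[i]? := by
      rw [List.getElem?_take_of_lt hi]
    rw [← e1, ← e2, h2]
  · by_cases hi2 : i < lead f + D
    · have := congrFun h4 ⟨i - lead f, by omega⟩
      simp only [win] at this
      rw [← h1, Nat.add_sub_cancel' (by omega)] at this
      exact this
    · have e1 : (f.drop (lead f + D))[i - (lead f + D)]? = f[i]? := by
        rw [List.getElem?_drop, Nat.add_sub_cancel' (by omega)]
      have e2 : (g.drop (lead f + D))[i - (lead f + D)]? = g[i]? := by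
        rw [List.getElem?_drop, Nat.add_sub_cancel' (by omega)]
      rw [← e1, ← e2, h3]

theorem exact_bound [Fintype V] [Fintype T] (G : Grammar V T) (hL : LmShape G)
    (hN : NonContracting G) (D : ℕ) (hD : ∀ p ∈ G.P, p.1.length ≤ D) (w : List T) (t : ℕ)
    (f : Form V T) (h : Exact G w t f) :
    t + 1 ≤ (2 * w.length + 1) * (Fintype.card V + Fintype.card T + 1) ^ D := by
  classical
  obtain ⟨s, _, hs1, hs2⟩ := exact_chain G w t f h
  have hlen : ∀ k, k ≤ t → (s k).length ≤ w.length := fun k hk =>
    length_le G hN w _ _ (hs1 k hk).1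
  let F : Fin (t + 1) → Fin (2 * w.length + 1) × (Fin D → Option (V ⊕ T)) := fun k =>
    (⟨(s k).length + lead (s k), by
      have h1 := hlen k (by omega)
      have h2 := lead_le (s k)
      omega⟩, win D (s k))
  have key : ∀ j k : Fin (t + 1), (j : ℕ) ≤ k → F j = F k → j = k := by
    intro j k hjk he
    have h1 := congrArg (fun x => (x.1 : ℕ)) he
    have h2 := congrArg Prod.snd he
    simp only [F] at h1 h2
    obtain ⟨u1, u2, u3⟩ := chain_spec G hL hN D hD s t j hs2 k hjk (by omega)
    obtain ⟨v1, v2⟩ := u3 (by omega) (by omega)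
    have e := eq_of_win D _ _ (by omega) v1 v2 h2
    have e1 := hs1 j (by omega)
    have e2 := hs1 k (by omega)
    rw [e] at e1
    have := exact_unique G w _ e1 e2
    exact Fin.ext (by omega)
  have hinj : Function.Injective F := by
    intro j k he
    rcases le_total (j : ℕ) k with h' | h'
    · exact key j k h' he
    · exact (key k j h' he.symm).symm
  have hc := Fintype.card_le_of_injective F hinj
  simpa using hc

theorem tree_bound [Fintype V] [Fintype T] (G : Grammar V T) (hL : LmShape G)
    (hN : NonContracting G) (D : ℕ) (hD : ∀ p ∈ G.P, p.1.length ≤ D) (w : List T)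
    (hw : w ∈ Lang G) :
    TreeD G w (3 * (Fintype.card V + Fintype.card T + 1) ^ D * w.length) [Sum.inl G.S] := by
  classical
  have hex : ∃ t, TreeD G w t [Sum.inl G.S] := tree_treeD G w _ hw
  have hE : Exact G w (Nat.find hex) [Sum.inl G.S] :=
    ⟨Nat.find_spec hex, fun s hs => Nat.find_min hex hs⟩
  have h1 := exact_bound G hL hN D hD w _ _ hE
  have h2 : 1 ≤ w.length := by
    have := length_le G hN w _ _ hE.1
    simpa using this
  refine treeD_le G w _ ?_ hE.1
  have h3 : (2 * w.length + 1) * (Fintype.card V + Fintype.card T + 1) ^ D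
      ≤ (3 * w.length) * (Fintype.card V + Fintype.card T + 1) ^ D :=
    Nat.mul_le_mul_right _ (by omega)
  have h4 : (3 * w.length) * (Fintype.card V + Fintype.card T + 1) ^ D
      = 3 * (Fintype.card V + Fintype.card T + 1) ^ D * w.length := by ring
  omega

theorem treeD_tree (G : Grammar V T) (w : List T) : ∀ (t : ℕ) (f : Form V T),
    TreeD G w t f → Tree G w f
  | 0, f, h => by
    have h' : f = word w := h
    rw [h']
    exact Tree.leaf
  | t + 1, f, h => by
    rcases h with h | ⟨C, hC, h⟩
    · rw [h]
      exact Tree.leaf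
    · exact Tree.node f C hC fun g hg => treeD_tree G w t g (h g hg)

end Pool.Agent.H43.AG
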