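import Mathlib

/-!
# Alternating grammars in leftmost mode (definitions for MP_e9c5ae_lc)
-/

set_option autoImplicit false

namespace Pool.Agent.H43.AG

/-- sentential forms over the variables `V` and the terminals `T` -/
abbrev Form (V T : Type) : Type := List (V ⊕ T)

/-- the terminal word `x` as a sentential form -/
def word {V T : Type} (x : List T) : Form V T := x.map Sum.inr

/-- alternating grammar: start symbol `S`, universal variables `U`, finite set `P` of productions
`ℓ → r` -/
structure Grammar (V T : Type) where
  S : V
  U : Set V
  P : Set (Form V T × Form V T)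
  fin : P.Finite

/-- every production has the shape `x A α → x β` with `x` a terminal word, `A` a variable -/
def LmShape {V T : Type} (G : Grammar V T) : Prop :=
  ∀ p ∈ G.P, ∃ (x : List T) (A : V) (α β : Form V T),
    p.1 = word x ++ Sum.inl A :: α ∧ p.2 = word x ++ β

/-- context-sensitive: no production shortens -/
def NonContracting {V T : Type} (G : Grammar V T) : Prop :=
  ∀ p ∈ G.P, p.1.length ≤ p.2.length

/-- the leftmost variable of `l` is universal -/
def Universal {V T : Type} (G : Grammar V T) (l : Form V T) : Prop :=
  ∃ (x : List T) (A : V) (α : Form V T), l = word x ++ Sum.inl A :: α ∧ A ∈ G.U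

/-- `C` is the set of the results of one leftmost step from `f` -/
inductive Step {V T : Type} (G : Grammar V T) : Form V T → Set (Form V T) → Prop
  | ex (x : List T) (l r d : Form V T) : ¬ Universal G l → (l, r) ∈ G.P →
      Step G (word x ++ l ++ d) {word x ++ r ++ d}
  | all (x : List T) (l d : Form V T) : Universal G l → (∃ r, (l, r) ∈ G.P) →
      Step G (word x ++ l ++ d) {g | ∃ r, (l, r) ∈ G.P ∧ g = word x ++ r ++ d}

/-- there is a finite tree with root `f`, all leaves labelled `w`, in which the children of each
inner node are the results of one leftmost step -/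
inductive Tree {V T : Type} (G : Grammar V T) (w : List T) : Form V T → Prop
  | leaf : Tree G w (word w)
  | node (f : Form V T) (C : Set (Form V T)) : Step G f C → (∀ g ∈ C, Tree G w g) → Tree G w f

/-- the same with a tree of depth at most `t` -/
def TreeD {V T : Type} (G : Grammar V T) (w : List T) : ℕ → Form V T → Prop
  | 0, f => f = word w
  | t + 1, f => f = word w ∨ ∃ C, Step G f C ∧ ∀ g ∈ C, TreeD G w t g

/-- the language generated in leftmost mode -/
def Lang {V T : Type} (G : Grammar V T) : Set (List T) :=
  {w | Tree G w [Sum.inl G.S]}

end Pool.Agent.H43.AG
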