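import Pool.Agent.H43.AG.Def

/-!
# Trees of linear depth for leftmost noncontracting alternating grammars
-/

set_option autoImplicit false

namespace Pool.Agent.H43.AG

variable {V T : Type}

theorem treeD_mono (G : Grammar V T) (w : List T) : ∀ (t : ℕ) (f : Form V T),
    TreeD G w t f → TreeD G w (t + 1) f
  | 0, f, h => Or.inl h
  | t + 1, f, h => by
    rcases h with h | ⟨C, hC, h⟩
    · exact Or.inl h
    · exact Or.inr ⟨C, hC, fun g hg => treeD_mono G w t g (h g hg)⟩

theorem treeD_le (G : Grammar V T) (w : List T) (f : Form V T) {s t : ℕ} (h : s ≤ t)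
    (hs : TreeD G w s f) : TreeD G w t f := by
  induction h with
  | refl => exact hs
  | step _ ih => exact treeD_mono G w _ f ih

theorem step_nonempty (G : Grammar V T) {f : Form V T} {C : Set (Form V T)} (h : Step G f C) :
    C.Nonempty := by
  cases h with
  | ex x l r d _ _ => exact ⟨_, rfl⟩
  | all x l d _ hr =>
    obtain ⟨r, hr⟩ := hr
    exact ⟨_, r, hr, rfl⟩

theorem step_finite (G : Grammar V T) {f : Form V T} {C : Set (Form V T)} (h : Step G f C) :
    C.Finite := by
  cases h with
  | ex x l r d _ _ => exact Set.finite_singleton _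
  | all x l d _ _ =>
    refine (G.fin.image (fun p => word x ++ p.2 ++ d)).subset ?_
    rintro g ⟨r, hr, rfl⟩
    exact ⟨(l, r), hr, rfl⟩

theorem tree_treeD (G : Grammar V T) (w : List T) (f : Form V T) (h : Tree G w f) :
    ∃ t, TreeD G w t f := by
  induction h with
  | leaf => exact ⟨0, rfl⟩
  | node f C hC _ ih =>
    choose! t ht using ih
    have hf := step_finite G hC
    obtain ⟨M, hM⟩ := (hf.image t).bddAbove
    refine ⟨M + 1, Or.inr ⟨C, hC, fun g hg => ?_⟩⟩
    exact treeD_le G w g (hM ⟨g, hg, rfl⟩) (ht g hg)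

/-- one branch of a step -/
def Sub (G : Grammar V T) (f g : Form V T) : Prop :=
  ∃ (x : List T) (l r d : Form V T), (l, r) ∈ G.P ∧ f = word x ++ l ++ d ∧ g = word x ++ r ++ d

theorem step_sub (G : Grammar V T) {f g : Form V T} {C : Set (Form V T)} (h : Step G f C)
    (hg : g ∈ C) : Sub G f g := by
  cases h with
  | ex x l r d _ hr => exact ⟨x, l, r, d, hr, rfl, hg⟩
  | all x l d _ _ =>
    obtain ⟨r, hr, hg⟩ := hg
    exact ⟨x, l, r, d, hr, rfl, hg⟩

theorem length_le (G : Grammar V T) (hN : NonContracting G) (w : List T) :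
    ∀ (t : ℕ) (f : Form V T), TreeD G w t f → f.length ≤ w.length
  | 0, f, h => by
    have : f = word w := h
    rw [this, word, List.length_map]
  | t + 1, f, h => by
    rcases h with h | ⟨C, hC, h⟩
    · rw [h, word, List.length_map]
    · obtain ⟨g, hg⟩ := step_nonempty G hC
      have h1 := length_le G hN w t g (h g hg)
      obtain ⟨x, l, r, d, hr, hf, hg'⟩ := step_sub G hC hg
      have h2 := hN _ hr
      simp only at h2
      rw [hg'] at h1
      rw [hf]
      simp only [List.length_append] at h1 ⊢
      omega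

/-- `f` has a tree of depth `t` and none of smaller depth -/
def Exact (G : Grammar V T) (w : List T) (t : ℕ) (f : Form V T) : Prop :=
  TreeD G w t f ∧ ∀ s, s < t → ¬ TreeD G w s f

theorem exact_unique (G : Grammar V T) (w : List T) (f : Form V T) {s t : ℕ}
    (hs : Exact G w s f) (ht : Exact G w t f) : s = t := by
  rcases lt_trichotomy s t with h | h | h
  · exact absurd hs.1 (ht.2 s h)
  · exact h
  · exact absurd ht.1 (hs.2 t h)

theorem exact_child (G : Grammar V T) (w : List T) (f : Form V T) (t : ℕ)
    (h : Exact G w (t + 1) f) : ∃ g, Sub G f g ∧ Exact G w t g := by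
  obtain ⟨h1, h2⟩ := h
  rcases h1 with h1 | ⟨C, hC, h1⟩
  · exact absurd (show TreeD G w 0 f from h1) (h2 0 (by omega))
  · cases t with
    | zero =>
      obtain ⟨g, hg⟩ := step_nonempty G hC
      exact ⟨g, step_sub G hC hg, h1 g hg, fun s hs => absurd hs (by omega)⟩
    | succ t =>
      by_contra hcon
      push Not at hcon
      apply h2 (t + 1) (by omega)
      refine Or.inr ⟨C, hC, fun g hg => ?_⟩
      by_contra hg2
      apply hcon g (step_sub G hC hg)
      refine ⟨h1 g hg, fun s hs h3 => hg2 (treeD_le G w g (by omega) h3)⟩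

theorem exact_chain (G : Grammar V T) (w : List T) : ∀ (t : ℕ) (f : Form V T), Exact G w t f →
    ∃ s : ℕ → Form V T, s 0 = f ∧ (∀ k, k ≤ t → Exact G w (t - k) (s k)) ∧
      ∀ k, k < t → Sub G (s k) (s (k + 1))
  | 0, f, h => ⟨fun _ => f, rfl, fun k hk => by
      have : k = 0 := by omega
      subst this
      exact h, fun k hk => absurd hk (by omega)⟩
  | t + 1, f, h => by
    obtain ⟨g, hg, hg2⟩ := exact_child G w f t h
    obtain ⟨s, hs0, hs1, hs2⟩ := exact_chain G w t g hg2
    refine ⟨fun k => if k = 0 then f else s (k - 1), by simp, ?_, ?_⟩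
    · intro k hk
      rcases k with _ | k
      · simpa using h
      · have := hs1 k (by omega)
        simpa [Nat.add_sub_add_right] using this
    · intro k hk
      rcases k with _ | k
      · simpa [hs0] using hg
      · have := hs2 k (by omega)
        simpa using this

end Pool.Agent.H43.AG
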