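import Pool.Agent.H43.AG.CF

/-!
# Alternating context-free grammars in leftmost mode: the least fixed point
-/

set_option autoImplicit false

namespace Pool.Agent.H43.AG

variable {V T : Type}

/-- the map of a form on sets of words, for given maps of the variables: a terminal `a` sends `R`
to `{a u : u ∈ R}`, and the map of a product is the composition -/
def ext (H : V → Set (List T) → Set (List T)) : Form V T → Set (List T) → Set (List T)
  | [], R => R
  | Sum.inr a :: f, R => {v | ∃ u ∈ ext H f R, v = a :: u}
  | Sum.inl A :: f, R => H A (ext H f R)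

theorem ext_append (H : V → Set (List T) → Set (List T)) (f g : Form V T) (R : Set (List T)) :
    ext H (f ++ g) R = ext H f (ext H g R) := by
  induction f with
  | nil => rfl
  | cons c f ih =>
    rcases c with A | a
    · simp only [List.cons_append, ext, ih]
    · simp only [List.cons_append, ext, ih]

theorem ext_word (H : V → Set (List T) → Set (List T)) (u : List T) (f : Form V T)
    (R : Set (List T)) (w : List T) :
    w ∈ ext H (word u ++ f) R ↔ ∃ v ∈ ext H f R, w = u ++ v := by
  induction u generalizing w with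
  | nil => simp [word]
  | cons a u ih =>
    have e : (word (a :: u) ++ f : Form V T) = Sum.inr a :: (word u ++ f) := rfl
    rw [e]
    constructor
    · rintro ⟨y, hy, rfl⟩
      obtain ⟨v, hv, rfl⟩ := (ih y).1 hy
      exact ⟨v, hv, rfl⟩
    · rintro ⟨v, hv, rfl⟩
      exact ⟨u ++ v, (ih _).2 ⟨v, hv, rfl⟩, rfl⟩

theorem tree_iff_pt (G : Grammar V T) (w : List T) (f : Form V T) :
    Tree G w f ↔ PT G {[]} w f := by
  constructor
  · intro h
    induction h with
    | leaf => exact PT.leaf w [] (by simp) rfl
    | node f C hC _ ih => exact PT.node f C hC ih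
  · intro h
    induction h with
    | leaf u v hw hv =>
      have hv' : v = [] := hv
      rw [hw, hv', List.append_nil]
      exact Tree.leaf
    | node f C hC _ ih => exact Tree.node f C hC ih

theorem pt_local (G : Grammar V T) (R R' : Set (List T)) (w : List T) (f : Form V T)
    (hR : ∀ u, u <:+ w → u ∈ R → u ∈ R') (h : PT G R w f) : PT G R' w f := by
  induction h with
  | leaf u v hw hv => exact PT.leaf u v hw (hR v ⟨u, hw.symm⟩ hv)
  | node f C hC _ ih => exact PT.node f C hC ih

theorem pt_left (G : Grammar V T) (hG : ContextFree G) (R : Set (List T)) (u v : List T)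
    (b : Form V T) (h : PT G R v b) : PT G R (u ++ v) (word u ++ b) := by
  induction h with
  | leaf x y hw hv =>
    rw [← word_append]
    exact PT.leaf (u ++ x) y (by rw [hw]; simp) hv
  | node f C hC _ ih =>
    obtain ⟨x, A, d, S, hS, rfl, rfl⟩ := (step_iff G hG _ _).1 hC
    refine PT.node _ ((fun r => word (u ++ x) ++ r ++ d) '' S)
      ((step_iff G hG _ _).2 ⟨u ++ x, A, d, S, hS, by rw [word_append]; simp, rfl⟩) ?_
    rintro g ⟨r, hr, rfl⟩
    have := ih _ ⟨r, hr, rfl⟩
    simpa [word_append] using this

theorem pt_unshift (G : Grammar V T) (hG : ContextFree G) (R : Set (List T)) (w : List T)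
    (h : Form V T) (ht : PT G R w h) : ∀ (u : List T) (b : Form V T), h = word u ++ b →
      ∃ v, w = u ++ v ∧ PT G R v b := by
  induction ht with
  | leaf x y hw hy =>
    intro u b hb
    obtain ⟨v, rfl, rfl⟩ := word_split x u b hb
    exact ⟨v ++ y, by rw [hw]; simp, PT.leaf v y rfl hy⟩
  | node f C hC _ ih =>
    intro u b hb
    obtain ⟨x, A, d, S, hS, rfl, rfl⟩ := (step_iff G hG _ _).1 hC
    obtain ⟨y, rfl, rfl⟩ := var_pos u x A d b hb
    obtain ⟨r0, hr0⟩ := ch_nonempty G hS
    obtain ⟨v, hv, _⟩ := ih _ ⟨r0, hr0, rfl⟩ u (word y ++ r0 ++ d)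
      (by rw [word_append]; simp)
    refine ⟨v, hv, PT.node _ ((fun r => word y ++ r ++ d) '' S)
      ((step_iff G hG _ _).2 ⟨y, A, d, S, hS, rfl, rfl⟩) ?_⟩
    rintro g ⟨r, hr, rfl⟩
    obtain ⟨v', hv', ht'⟩ := ih _ ⟨r, hr, rfl⟩ u (word y ++ r ++ d)
      (by rw [word_append]; simp)
    have : v' = v := by
      rw [hv] at hv'
      exact (List.append_cancel_left hv').symm
    rw [← this]
    exact ht'

theorem pt_comp' (G : Grammar V T) (hG : ContextFree G) (R : Set (List T)) (w : List T)
    (f b : Form V T) (h : PT G {v | PT G R v b} w f) : PT G R w (f ++ b) := by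
  induction h with
  | leaf u v hw hv =>
    have := pt_left G hG R u v b hv
    rw [hw]
    exact this
  | node f C hC _ ih =>
    obtain ⟨x, A, d, S, hS, rfl, rfl⟩ := (step_iff G hG _ _).1 hC
    refine PT.node _ ((fun r => word x ++ r ++ (d ++ b)) '' S)
      ((step_iff G hG _ _).2 ⟨x, A, d ++ b, S, hS, by simp, rfl⟩) ?_
    rintro g ⟨r, hr, rfl⟩
    have := ih _ ⟨r, hr, rfl⟩
    simpa using this

theorem pt_decomp' (G : Grammar V T) (hG : ContextFree G) (R : Set (List T)) (w : List T)
    (h : Form V T) (ht : PT G R w h) :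
    ∀ f b : Form V T, h = f ++ b → PT G {v | PT G R v b} w f := by
  induction ht with
  | leaf x y hw hy =>
    intro f b hb
    obtain ⟨p, q, hx, hp, hq⟩ := List.map_eq_append_iff.1 (hb : List.map Sum.inr x = _)
    rw [← hp]
    refine PT.leaf p (q ++ y) (by rw [hw, hx]; simp) ?_
    rw [← hq]
    exact PT.leaf q y rfl hy
  | node h C hC hT ih =>
    intro f b hb
    rcases form_cases f with ⟨u, rfl⟩ | ⟨u, A, d, rfl⟩
    · obtain ⟨v, hv, htv⟩ := pt_unshift G hG R w h (PT.node h C hC hT) u b hb
      exact PT.leaf u v hv htv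
    · obtain ⟨x, B, e, S, hS, rfl, rfl⟩ := (step_iff G hG _ _).1 hC
      have hb' : word x ++ Sum.inl B :: e = word u ++ Sum.inl A :: (d ++ b) := by
        rw [hb]
        simp
      obtain ⟨rfl, rfl, rfl⟩ := var_unique x u B A e (d ++ b) hb'
      refine PT.node _ ((fun r => word x ++ r ++ d) '' S)
        ((step_iff G hG _ _).2 ⟨x, B, d, S, hS, rfl, rfl⟩) ?_
      rintro g ⟨r, hr, rfl⟩
      exact ih _ ⟨r, hr, rfl⟩ (word x ++ r ++ d) b (by simp)

/-- the maps of the variables -/
def Sem (G : Grammar V T) : V → Set (List T) → Set (List T) :=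
  fun A R => {v | PT G R v [Sum.inl A]}

theorem pt_nil (G : Grammar V T) (hG : ContextFree G) (R : Set (List T)) (w : List T) :
    PT G R w [] ↔ w ∈ R := by
  constructor
  · intro h
    have := pt_decomp' G hG R w [] h [] [] rfl
    generalize he : ([] : Form V T) = e at h
    cases h with
    | leaf u v hw hv =>
      have : u = [] := by
        cases u with
        | nil => rfl
        | cons a u => simp [word] at he
      rw [hw, this, List.nil_append]
      exact hv
    | node _ C hC _ =>
      obtain ⟨x, A, d, S, hS, he2, _⟩ := (step_iff G hG _ _).1 hC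
      rw [← he] at he2
      simp at he2
  · intro h
    exact PT.leaf [] w rfl h

theorem pt_iff_ext (G : Grammar V T) (hG : ContextFree G) (f : Form V T) :
    ∀ (R : Set (List T)) (w : List T), PT G R w f ↔ w ∈ ext (Sem G) f R := by
  induction f with
  | nil =>
    intro R w
    exact pt_nil G hG R w
  | cons c f ih =>
    intro R w
    rcases c with A | a
    · have e : (Sum.inl A :: f : Form V T) = [Sum.inl A] ++ f := rfl
      have hset : {v | PT G R v f} = ext (Sem G) f R := by
        ext v
        exact ih R v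
      constructor
      · intro h
        have := pt_decomp' G hG R w _ h [Sum.inl A] f e
        rw [hset] at this
        exact this
      · intro h
        have h' : PT G (ext (Sem G) f R) w [Sum.inl A] := h
        rw [← hset] at h'
        exact pt_comp' G hG R w [Sum.inl A] f h'
    · constructor
      · intro h
        obtain ⟨v, hv, hp⟩ := pt_unshift G hG R w _ h [a] f rfl
        exact ⟨v, (ih R v).1 hp, hv⟩
      · rintro ⟨v, hv, rfl⟩
        exact pt_left G hG R [a] v f ((ih R v).2 hv)

theorem sem_eq (G : Grammar V T) (hG : ContextFree G) (A : V) (R : Set (List T)) (w : List T) :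
    w ∈ Sem G A R ↔ ∃ S ∈ Ch G A, ∀ r ∈ S, w ∈ ext (Sem G) r R := by
  constructor
  · intro h
    have h' : PT G R w [Sum.inl A] := h
    generalize he : ([Sum.inl A] : Form V T) = e at h'
    cases h' with
    | leaf u v hw hv =>
      cases u with
      | nil => simp [word] at he
      | cons a u => simp [word] at he
    | node _ C hC hT =>
      obtain ⟨x, B, d, S, hS, he2, rfl⟩ := (step_iff G hG _ _).1 hC
      rw [← he] at he2
      obtain ⟨rfl, rfl, rfl⟩ := var_unique [] x A B [] d he2
      refine ⟨S, hS, fun r hr => (pt_iff_ext G hG r R w).1 ?_⟩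
      have := hT _ ⟨r, hr, rfl⟩
      simpa [word] using this
  · rintro ⟨S, hS, h⟩
    refine PT.node _ ((fun r => word [] ++ r ++ []) '' S)
      ((step_iff G hG _ _).2 ⟨[], A, [], S, hS, rfl, rfl⟩) ?_
    rintro g ⟨r, hr, rfl⟩
    have := (pt_iff_ext G hG r R w).2 (h r hr)
    simpa [word] using this

/-- families of maps closed under the equations (from right to left) -/
def Closed (G : Grammar V T) (H : V → Set (List T) → Set (List T)) : Prop :=
  ∀ (A : V) (R : Set (List T)) (w : List T),
    (∃ S ∈ Ch G A, ∀ r ∈ S, w ∈ ext H r R) → w ∈ H A R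

theorem sem_least (G : Grammar V T) (hG : ContextFree G) (H : V → Set (List T) → Set (List T))
    (hH : Closed G H) (R : Set (List T)) (w : List T) (f : Form V T) (h : PT G R w f) :
    w ∈ ext H f R := by
  induction h with
  | leaf u v hw hv =>
    have := (ext_word H u [] R w).2 ⟨v, hv, hw⟩
    simpa using this
  | node f C hC _ ih =>
    obtain ⟨x, A, d, S, hS, rfl, rfl⟩ := (step_iff G hG _ _).1 hC
    have ih' : ∀ r ∈ S, ∃ v ∈ ext H r (ext H d R), w = x ++ v := by
      intro r hr
      have := ih _ ⟨r, hr, rfl⟩
      simp only at this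
      rw [List.append_assoc] at this
      rw [← ext_append]
      exact (ext_word H x (r ++ d) R w).1 this
    obtain ⟨r0, hr0⟩ := ch_nonempty G hS
    obtain ⟨v, _, hv⟩ := ih' r0 hr0
    refine (ext_word H x (Sum.inl A :: d) R w).2 ⟨v, ?_, hv⟩
    refine hH A _ v ⟨S, hS, fun r hr => ?_⟩
    obtain ⟨v', h1, hv'⟩ := ih' r hr
    have : v' = v := by
      rw [hv] at hv'
      exact (List.append_cancel_left hv').symm
    rw [← this]
    exact h1

end Pool.Agent.H43.AG
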